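import Pool.Agent.P8H19.AO.Stm

/-!
# Project AO, package GEO: codes in complex spaces with equal absolute values of the coordinates
-/

set_option autoImplicit false

open Finset ComplexConjugate

namespace Pool.Agent.P8H23.AO

open Pool.Agent.P8H19.AO

open Classical in
/-- the phase of a complex number, `1` for `0` -/
noncomputable def ph (z : ℂ) : ℂ := if z = 0 then 1 else z / ‖z‖

theorem norm_ph (z : ℂ) : ‖ph z‖ = 1 := by
  unfold ph
  split_ifs with h
  · exact norm_one
  · rw [norm_div, Complex.norm_real, norm_norm, div_self (norm_ne_zero_iff.2 h)]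

theorem ph_mul (z w : ℂ) (h : ‖z‖ = ‖w‖) : ((‖z‖ ^ 2 : ℝ) : ℂ) * (ph z * conj (ph w)) = z * conj w := by
  unfold ph
  by_cases hz : z = 0
  · have hw : w = 0 := by rwa [hz, norm_zero, eq_comm, norm_eq_zero] at h
    simp [hz, hw]
  · have hw : w ≠ 0 := by
      rintro rfl
      rw [norm_zero, norm_eq_zero] at h
      exact hz h
    rw [if_neg hz, if_neg hw, map_div₀, Complex.conj_ofReal, ← h]
    have h1 : ((‖z‖ : ℝ) : ℂ) ≠ 0 := by
      exact_mod_cast (norm_ne_zero_iff.2 hz)
    push_cast
    field_simp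

theorem t_GEO : S_GEO := by
  classical
  intro m s X hm hX hsep habs
  by_cases hne : X.Nonempty
  · obtain ⟨x₀, hx₀⟩ := hne
    refine ⟨fun i => ‖x₀ i‖ ^ 2, fun x i => ph ((x : EuclideanSpace ℂ (Fin m)) i), ?_⟩
    refine ⟨fun i => by positivity, ?_, fun x i => norm_ph _, ?_⟩
    · have h := EuclideanSpace.norm_sq_eq x₀
      rw [hX x₀ hx₀] at h
      rw [← h]
      norm_num
    · rintro ⟨x, hx⟩ ⟨y, hy⟩ hxy
      have hxy' : x ≠ y := fun h => hxy (Subtype.ext h)
      have h1 := hsep y hy x hx hxy'.symm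
      have h2 : (inner ℂ y x).re = ∑ i, ‖x₀ i‖ ^ 2 * (ph (x i) * conj (ph (y i))).re := by
        rw [PiLp.inner_apply, Complex.re_sum]
        refine Finset.sum_congr rfl fun i _ => ?_
        have e1 : ‖x₀ i‖ = ‖x i‖ := habs x₀ hx₀ x hx i
        have e2 := ph_mul (x i) (y i) (habs x hx y hy i)
        have e3 : inner ℂ (y i) (x i) = x i * conj (y i) := by
          simp [mul_comm]
        rw [e3, ← e2, e1, Complex.re_ofReal_mul]
      rw [← h2]
      exact h1
  · rw [Finset.not_nonempty_iff_eq_empty] at hne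
    subst hne
    refine ⟨fun _ => 1 / m, fun _ _ => 1, fun i => by positivity, ?_, fun _ _ => norm_one, ?_⟩
    · rw [Finset.sum_const, Finset.card_univ, Fintype.card_fin, nsmul_eq_mul]
      have : (m : ℝ) ≠ 0 := by positivity
      field_simp
    · rintro ⟨x, hx⟩
      exact absurd hx (Finset.notMem_empty x)

end Pool.Agent.P8H23.AO
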