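import Pool.Agent.P8H19.AO.Stm

/-!
# Project AO, package NUM: numerics
-/

set_option autoImplicit false

open Finset

namespace Pool.Agent.P8H23.AO

open Pool.Agent.P8H19.AO

theorem sum_Dk (f : ℤ → ℝ) : ∑ j ∈ Dk, f j = f (-2) + f (-1) + f 0 + f 1 + f 2 := by
  unfold Dk
  rw [sum_insert (by decide), sum_insert (by decide), sum_insert (by decide),
    sum_insert (by decide), sum_singleton]
  ring

theorem pk0 : pk 0 = 8618 / 10000 := by unfold pk; norm_num
theorem pk1 : pk 1 = 682 / 10000 := by unfold pk; norm_num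
theorem pkm1 : pk (-1) = 682 / 10000 := by unfold pk; norm_num
theorem pk2 : pk 2 = 9 / 10000 := by unfold pk; norm_num
theorem pkm2 : pk (-2) = 9 / 10000 := by unfold pk; norm_num
theorem pk3 : pk 3 = 0 := by unfold pk; norm_num

set_option exponentiation.threshold 20000 in
theorem big : (10000 : ℕ) ^ 10000 < 2 ^ 7317 * 8618 ^ 8618 * 682 ^ 1364 * 9 ^ 18 :=
  by decide +kernel

theorem dist_k : Dist Dk pk where
  pos := by
    intro j hj
    simp only [Dk, mem_insert, mem_singleton] at hj
    rcases hj with rfl | rfl | rfl | rfl | rfl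
    · rw [pkm2]; norm_num
    · rw [pkm1]; norm_num
    · rw [pk0]; norm_num
    · rw [pk1]; norm_num
    · rw [pk2]; norm_num
  zero := by
    intro j hj
    simp only [Dk, mem_insert, mem_singleton, not_or] at hj
    unfold pk
    rw [if_neg hj.2.2.1, if_neg (by tauto), if_neg (by tauto)]
  sum := by
    rw [sum_Dk, pk0, pk1, pkm1, pk2, pkm2]
    norm_num

theorem t_NUM : S_NUM := by
  refine ⟨dist_k, ?_, ?_⟩
  · unfold aff
    rw [sum_Dk]
    rw [show (-2 : ℤ) + 1 = -1 by norm_num, show (-1 : ℤ) + 1 = 0 by norm_num,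
      show (0 : ℤ) + 1 = 1 by norm_num, show (1 : ℤ) + 1 = 2 by norm_num,
      show (2 : ℤ) + 1 = 3 by norm_num, pk0, pk1, pkm1, pk2, pkm2, pk3]
    have h1 : (24242 / 100000 : ℝ) < √(682 / 10000 * (8618 / 10000)) := by
      rw [Real.lt_sqrt (by norm_num)]
      norm_num
    have h1' : (24242 / 100000 : ℝ) < √(8618 / 10000 * (682 / 10000)) := by
      rw [Real.lt_sqrt (by norm_num)]
      norm_num
    have h2 : (783 / 100000 : ℝ) < √(9 / 10000 * (682 / 10000)) := by
      rw [Real.lt_sqrt (by norm_num)]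
      norm_num
    have h2' : (783 / 100000 : ℝ) < √(682 / 10000 * (9 / 10000)) := by
      rw [Real.lt_sqrt (by norm_num)]
      norm_num
    have h3 : (0 : ℝ) ≤ √(9 / 10000 * 0) := Real.sqrt_nonneg _
    linarith
  · unfold ent
    rw [sum_Dk, pk0, pk1, pkm1, pk2, pkm2]
    have e : ∀ x : ℝ, 0 < x → Real.log (x / 10000) = Real.log x - Real.log 10000 := fun x hx =>
      Real.log_div hx.ne' (by norm_num)
    rw [e 8618 (by norm_num), e 682 (by norm_num), e 9 (by norm_num)]
    have hb : ((10000 : ℕ) : ℝ) ^ 10000 < (2 : ℕ) ^ 7317 * (8618 : ℕ) ^ 8618 * (682 : ℕ) ^ 1364 *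
        (9 : ℕ) ^ 18 := by exact_mod_cast big
    have hl := Real.log_lt_log (by positivity) hb
    rw [Real.log_mul (by positivity) (by positivity), Real.log_mul (by positivity) (by positivity),
      Real.log_mul (by positivity) (by positivity), Real.log_pow, Real.log_pow, Real.log_pow,
      Real.log_pow, Real.log_pow] at hl
    push_cast at hl
    linarith

end Pool.Agent.P8H23.AO
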